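import Pool.Agent.E8helper19.EN.Stm

/-!
# Project EN, piece EN3 (S_FUB): Fubini
-/

set_option autoImplicit false

open MeasureTheory Filter Topology Set
open Pool.Agent.E8helper19.EN

namespace Pool.Agent.E8helper41.EN

/-- the kernel -/
noncomputable def ff (t x : ℝ) : ℝ := (Ioi t).indicator (fun x => x) x

lemma ff_eq (t x : ℝ) : ff t x = ({p : ℝ × ℝ | p.1 < p.2}).indicator (fun p => p.2) (t, x) := by
  unfold ff
  by_cases h : t < x
  · rw [indicator_of_mem (show x ∈ Ioi t from h), indicator_of_mem (show (t, x) ∈ _ from h)]
  · rw [indicator_of_notMem (show x ∉ Ioi t from h), indicator_of_notMem (show (t, x) ∉ _ from h)]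

lemma meas_lt : MeasurableSet {p : ℝ × ℝ | p.1 < p.2} := measurableSet_lt measurable_fst measurable_snd

lemma ff_meas : Measurable (Function.uncurry ff) := by
  have e : Function.uncurry ff = ({p : ℝ × ℝ | p.1 < p.2}).indicator (fun p => p.2) := by
    funext ⟨t, x⟩
    exact ff_eq t x
  rw [e]
  exact measurable_snd.indicator meas_lt

lemma HH_eq (ν : Measure ℝ) (t : ℝ) : HH ν t = ∫ x, ff t x ∂ν := by
  unfold HH ff
  rw [integral_indicator measurableSet_Ioi]

theorem t_FUB : S_FUB := by
  intro ν hν hx
  refine ⟨?_, ?_, ?_⟩
  · have h : StronglyMeasurable (fun t => ∫ x, ff t x ∂ν) :=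
      StronglyMeasurable.integral_prod_right (f := ff) ff_meas.stronglyMeasurable
    have e : HH ν = fun t => ∫ x, ff t x ∂ν := funext (HH_eq ν)
    rw [e]
    exact h.measurable
  · intro t
    unfold HH
    calc |∫ x in Ioi t, x ∂ν| ≤ ∫ x in Ioi t, |x| ∂ν := by
          simpa [Real.norm_eq_abs] using
            norm_integral_le_integral_norm (μ := ν.restrict (Ioi t)) (fun x : ℝ => x)
      _ ≤ ∫ x, |x| ∂ν :=
          setIntegral_le_integral hx.abs (Eventually.of_forall fun x => abs_nonneg x)
  · intro g hg hgc
    have hgi : Integrable g := hg.integrable_of_hasCompactSupport hgc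
    have hF : Integrable (Function.uncurry fun (t x : ℝ) => g t * ff t x) (volume.prod ν) := by
      have h1 : Integrable (fun p : ℝ × ℝ => g p.1 * p.2) (volume.prod ν) :=
        hgi.mul_prod hx
      have h2 := h1.indicator meas_lt
      have e : (Function.uncurry fun (t x : ℝ) => g t * ff t x) =
          ({p : ℝ × ℝ | p.1 < p.2}).indicator (fun p : ℝ × ℝ => g p.1 * p.2) := by
        funext ⟨t, x⟩
        show g t * ff t x = _
        rw [ff_eq]
        by_cases h : t < x
        · rw [indicator_of_mem (show (t, x) ∈ {p : ℝ × ℝ | p.1 < p.2} from h),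
            indicator_of_mem (show (t, x) ∈ {p : ℝ × ℝ | p.1 < p.2} from h)]
        · rw [indicator_of_notMem (show (t, x) ∉ {p : ℝ × ℝ | p.1 < p.2} from h),
            indicator_of_notMem (show (t, x) ∉ {p : ℝ × ℝ | p.1 < p.2} from h), mul_zero]
      rw [e]
      exact h2
    have e1 : ∀ t, ∫ x, g t * ff t x ∂ν = g t * HH ν t := by
      intro t
      rw [integral_const_mul, HH_eq]
    have e2 : ∀ x, ∫ t, g t * ff t x = x * ∫ t in Iic x, g t := by
      intro x
      have h3 : (fun t => g t * ff t x) = (Iio x).indicator (fun t => g t * x) := by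
        funext t
        unfold ff
        by_cases h : t < x
        · rw [indicator_of_mem (show x ∈ Ioi t from h), indicator_of_mem (show t ∈ Iio x from h)]
        · rw [indicator_of_notMem (show x ∉ Ioi t from h),
            indicator_of_notMem (show t ∉ Iio x from h), mul_zero]
      rw [h3, integral_indicator measurableSet_Iio, integral_mul_const, mul_comm,
        integral_Iic_eq_integral_Iio]
    refine ⟨?_, ?_⟩
    · have h := hF.integral_prod_left
      refine h.congr (Eventually.of_forall fun t => ?_)
      exact e1 t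
    · calc ∫ x, x * (∫ t in Iic x, g t) ∂ν = ∫ x, (∫ t, g t * ff t x) ∂ν := by
            refine integral_congr_ae (Eventually.of_forall fun x => ?_)
            exact (e2 x).symm
        _ = ∫ t, ∫ x, g t * ff t x ∂ν := (integral_integral_swap hF).symm
        _ = ∫ t, g t * HH ν t := by
            refine integral_congr_ae (Eventually.of_forall fun t => ?_)
            exact e1 t

end Pool.Agent.E8helper41.EN
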